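import Mathlib

/-!
# Families over a curve, Q0: multiplicative functions on the ideals of a principal ideal domain
-/

namespace Pool.Agent.Helper8.FAM

open Polynomial

universe u

/-- Q0: a multiplicative function on a principal ideal domain that is one on units defines a
multiplicative function on ideals. -/
theorem ideal_hom {R : Type u} [CommRing R] [IsDomain R] [IsPrincipalIdealRing R]
    (δ : R →*₀ ℝ) (hδ : ∀ u : R, IsUnit u → δ u = 1) :
    ∃ D : Ideal R →*₀ ℝ, ∀ f : R, D (Ideal.span {f}) = δ f := by
  have hass : ∀ f g : R, Ideal.span {f} = Ideal.span {g} → δ f = δ g := by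
    intro f g h
    obtain ⟨u, hu⟩ := Ideal.span_singleton_eq_span_singleton.1 h
    rw [← hu, map_mul, hδ u u.isUnit, mul_one]
  have hgen : ∀ I : Ideal R, ∀ f : R, I = Ideal.span {f} →
      δ (Submodule.IsPrincipal.generator I) = δ f := by
    intro I f h
    refine hass _ _ ?_
    rw [Ideal.span_singleton_generator, h]
  refine ⟨{ toFun := fun I => δ (Submodule.IsPrincipal.generator I)
            map_zero' := ?_
            map_one' := ?_
            map_mul' := ?_ }, fun f => hgen _ f rfl⟩
  · rw [hgen 0 0 (by simp), map_zero]
  · rw [hgen 1 1 (by simp), map_one]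
  · intro I J
    rw [← map_mul]
    refine hgen _ _ ?_
    rw [← Ideal.span_singleton_mul_span_singleton, Ideal.span_singleton_generator,
      Ideal.span_singleton_generator]

end Pool.Agent.Helper8.FAM
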